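import Mathlib
import Pool.Agent.W770.KP.Stm

set_option autoImplicit false

open scoped Classical

namespace Pool.Agent.W376.KP
open Pool.Agent.W770.KP

theorem PS_eq {F E : Type} [Field F] [AddCommGroup E] [Module F E] [Fintype E]
    (f : E → ℝ) (a : E) (W : Submodule F E) :
    PS f a W = ∑ x ∈ Finset.univ.filter (fun x => x - a ∈ W), f x := by
  unfold PS
  rw [Finset.sum_filter]

theorem step : S_STEP := by
  intro n k hk hkn hAbs hStage
  obtain ⟨C1, hC1, hA⟩ := hAbs
  obtain ⟨C2, hC2, hS⟩ := hStage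
  refine ⟨C1 * C2, mul_pos hC1 hC2, ?_⟩
  intro F E _ _ _ _ _ hE f hf a
  have key := hA {W : Submodule F E // W ∈ Gr F E (k + 1)} E
    (fun i => Finset.univ.filter (fun x => x - a i.1 ∈ i.1)) (C2 * ((Gr F E (k + 1)).card : ℝ))
    (by positivity) ?_ f hf
  · have e1 : ∑ W ∈ Gr F E (k + 1), (PS f (a W) W) ^ (n + 1) =
        ∑ i : {W : Submodule F E // W ∈ Gr F E (k + 1)},
          (∑ x ∈ Finset.univ.filter (fun x => x - a i.1 ∈ i.1), f x) ^ (n + 1) := by
      rw [← Finset.sum_coe_sort (Gr F E (k + 1))]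
      refine Finset.sum_congr rfl fun i _ => ?_
      rw [PS_eq]
    rw [e1]
    refine key.trans (le_of_eq ?_)
    push_cast
    ring
  · intro Λ P B hB γ hγ
    have hg : ∀ l ∈ Λ, 0 ≤ γ l := fun l hl => le_trans (by positivity) (hγ l hl)
    have key := hS F E hE Λ (fun l => (P l).image fun i => (a i.1, i.1)) ?_ B ?_
      (fun x => ∑ l ∈ Λ, if x ∈ B l then (4 : ℝ) ^ (l * ((k : ℤ) + 1)) else 0) ?_ ?_ γ hγ a
    · have e1 : ∑ i : {W : Submodule F E // W ∈ Gr F E (k + 1)},
          (∑ x ∈ Finset.univ.filter (fun x => x - a i.1 ∈ i.1),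
            ∑ l ∈ Λ, if x ∈ B l then (4 : ℝ) ^ (l * ((k : ℤ) + 1)) else 0) ^ n =
          ∑ W ∈ Gr F E (k + 1), (PS (fun x => ∑ l ∈ Λ,
            if x ∈ B l then (4 : ℝ) ^ (l * ((k : ℤ) + 1)) else 0) (a W) W) ^ n := by
        rw [← Finset.sum_coe_sort (Gr F E (k + 1))]
        refine Finset.sum_congr rfl fun i _ => ?_
        rw [PS_eq]
      rw [e1]
      refine key.trans ?_
      refine mul_le_mul_of_nonneg_left ?_ ?_
      · refine Finset.sum_le_sum fun l hl => ?_
        refine mul_le_mul_of_nonneg_left ?_ (hg l hl)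
        refine Finset.sum_le_sum fun l' _ => ?_
        refine mul_le_mul_of_nonneg_left ?_ (by positivity)
        exact_mod_cast Finset.card_image_le
      · have h1 : 0 ≤ ∑ l ∈ Λ, γ l := Finset.sum_nonneg hg
        positivity
    · intro l _ p hp
      obtain ⟨i, _, rfl⟩ := Finset.mem_image.mp hp
      exact (Finset.mem_filter.mp i.2).2
    · intro l hl x hx
      obtain ⟨i, hi, hxi⟩ := hB l hl x hx
      exact ⟨(a i.1, i.1), Finset.mem_image_of_mem _ hi, (Finset.mem_filter.mp hxi).2⟩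
    · intro x
      refine Finset.sum_nonneg fun l _ => ?_
      split_ifs
      · positivity
      · exact le_refl 0
    · intro x
      exact le_refl _

end Pool.Agent.W376.KP
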